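import Pool.Agent.H91.Varisolv

set_option autoImplicit false

open Set H91.Varisolv in
theorem Pool.Agent.Results.MP_850d3d_an.NotClosed.result.{u, v} :
    ∀ (A : Type u) (Q : Type v) [Fintype Q] (g : A → Q → ℝ), Varisolvent g →
    IsConnected (range g) → ¬ IsClosed (range g) :=
  main
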